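import Pool.Agent.Helper13.PS.St

/-!
# Project PS (MP_77ff3d_nt): module QA, one stage of the law
-/

set_option autoImplicit false

noncomputable section

namespace Pool.Agent.Helper54.PS

open Finset Filter Topology Pool.Agent.Helper76.ND Pool.Agent.Helper13.PS

private theorem wd_len (t N : ℕ) : (wd t N).length = t := by
  induction t with
  | zero => rfl
  | succ t ih => simp [wd, ih]

private theorem log3_lt : Real.log 3 < 11 / 10 := by
  have h1 : Real.log ((3 : ℝ) ^ 41) < Real.log ((2 : ℝ) ^ 65) :=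
    Real.log_lt_log (by positivity) (by norm_num)
  rw [Real.log_pow, Real.log_pow] at h1
  have h2 := Real.log_two_lt_d9
  push_cast at h1
  linarith

private theorem log3_le : Real.log 3 ≤ 65 / 41 * Real.log 2 := by
  have h1 : Real.log ((3 : ℝ) ^ 41) < Real.log ((2 : ℝ) ^ 65) :=
    Real.log_lt_log (by positivity) (by norm_num)
  rw [Real.log_pow, Real.log_pow] at h1
  push_cast at h1
  linarith

private theorem log3_ge : 3 / 2 * Real.log 2 ≤ Real.log 3 := by
  have h1 : Real.log ((2 : ℝ) ^ 3) < Real.log ((3 : ℝ) ^ 2) :=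
    Real.log_lt_log (by positivity) (by norm_num)
  rw [Real.log_pow, Real.log_pow] at h1
  push_cast at h1
  linarith

private theorem ev_small : ∃ t0 : ℕ, ∀ t : ℕ, t0 ≤ t → (t : ℝ) * (3 / 2 : ℝ) ^ t ≤
    1 / 2 * (7 / 4 : ℝ) ^ t := by
  have h1 := tendsto_self_mul_const_pow_of_abs_lt_one (r := (6 / 7 : ℝ))
    (by rw [abs_of_pos] <;> norm_num)
  obtain ⟨t0, ht0⟩ := Filter.eventually_atTop.1 (h1.eventually_le_const (show (0 : ℝ) < 1 / 2 by
    norm_num))
  refine ⟨t0, fun t ht => ?_⟩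
  have h2 := ht0 t ht
  have h3 : (3 / 2 : ℝ) ^ t = (6 / 7 : ℝ) ^ t * (7 / 4 : ℝ) ^ t := by
    rw [← mul_pow]
    norm_num
  rw [h3, ← mul_assoc]
  exact mul_le_mul_of_nonneg_right h2 (by positivity)

theorem hQA (hRl : StRl) (hDr : StDr) : StQA := by
  intro σ hσ hσ1
  obtain ⟨t1, ht1⟩ := ev_small
  obtain ⟨hR1, _, hR3⟩ := hRl
  refine ⟨max (max t1 ⌈1 / σ⌉₊) 100, fun t N ht hN1 hN2 hE => ?_⟩
  have htt1 : t1 ≤ t := le_trans (le_trans (le_max_left _ _) (le_max_left _ _)) ht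
  have htσ : 1 / σ ≤ t := by
    have h1 : ⌈1 / σ⌉₊ ≤ t := le_trans (le_trans (le_max_right _ _) (le_max_left _ _)) ht
    exact le_trans (Nat.le_ceil _) (by exact_mod_cast h1)
  have ht100 : 100 ≤ t := le_trans (le_max_right _ _) ht
  have ht100' : (100 : ℝ) ≤ t := by exact_mod_cast ht100
  have hσt : 1 ≤ σ * t := by
    rw [div_le_iff₀ hσ] at htσ
    linarith
  have hσt0 : 0 ≤ σ * t := by linarith
  have hσt2 : σ * t ≤ t / 100 := by nlinarith
  unfold E at hE
  push Not at hE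
  obtain ⟨hE1, hE2⟩ := hE
  -- the heads
  have hhd : ∀ j ≤ t, |(hd (wd j N) : ℝ) - j / 2| ≤ σ * t := by
    intro j hj
    have h1 := hE2 j (by rw [wd_len]; exact hj)
    rw [wd_len, hR3 t j N hj] at h1
    exact h1
  have hGd : ∀ i ≤ t, Gd (σ * t) (wd i N) := by
    intro i hi j hj
    rw [wd_len] at hj ⊢
    rw [hR3 i j N hj]
    exact hhd j (le_trans hj hi)
  have hNR : (1 : ℝ) ≤ N := by exact_mod_cast hN1
  have hl2 : 0 < Real.log 2 := Real.log_pos (by norm_num)
  have hl2' := Real.log_two_lt_d9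
  have hl2'' := Real.log_two_gt_d9
  have hl3 := log3_lt
  have hl3' := log3_le
  have hl3'' := log3_ge
  -- lower bound for N
  have hNlow : (7 / 4 : ℝ) ^ t ≤ N := by
    refine le_trans ?_ hE1
    have h1 : (7 / 4 : ℝ) ≤ (2 : ℝ) ^ (99 / 100 : ℝ) := by
      have h2 : ((7 / 4 : ℝ) ^ (100 : ℝ)) ≤ ((2 : ℝ) ^ (99 / 100 : ℝ)) ^ (100 : ℝ) := by
        rw [← Real.rpow_mul (by norm_num), show (99 / 100 : ℝ) * 100 = ((99 : ℕ) : ℝ) by norm_num,
          show (100 : ℝ) = ((100 : ℕ) : ℝ) by norm_num, Real.rpow_natCast, Real.rpow_natCast]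
        norm_num
      exact (Real.rpow_le_rpow_iff (by norm_num) (by positivity) (by norm_num)).1 h2
    calc (7 / 4 : ℝ) ^ t ≤ ((2 : ℝ) ^ (99 / 100 : ℝ)) ^ t := pow_le_pow_left₀ (by norm_num) h1 _
      _ = (2 : ℝ) ^ (99 / 100 * (t : ℝ)) := by
          rw [← Real.rpow_natCast, ← Real.rpow_mul (by norm_num)]
      _ ≤ (2 : ℝ) ^ ((1 - σ) * t) :=
          Real.rpow_le_rpow_of_exponent_le (by norm_num) (by nlinarith)
  have h3σ : (3 : ℝ) ^ (σ * t) ≤ (6 / 5 : ℝ) ^ t := by
    calc (3 : ℝ) ^ (σ * t) ≤ (3 : ℝ) ^ (1 / 100 * (t : ℝ)) :=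
          Real.rpow_le_rpow_of_exponent_le (by norm_num) (by linarith)
      _ = ((3 : ℝ) ^ (1 / 100 : ℝ)) ^ t := by
          rw [← Real.rpow_natCast, ← Real.rpow_mul (by norm_num)]
      _ ≤ (6 / 5 : ℝ) ^ t := by
          refine pow_le_pow_left₀ (by positivity) ?_ _
          have h2 : ((3 : ℝ) ^ (1 / 100 : ℝ)) ^ (100 : ℝ) ≤ (6 / 5 : ℝ) ^ (100 : ℝ) := by
            rw [← Real.rpow_mul (by norm_num), show (1 / 100 : ℝ) * 100 = 1 by norm_num,
              Real.rpow_one, show (100 : ℝ) = ((100 : ℕ) : ℝ) by norm_num, Real.rpow_natCast]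
            norm_num
          exact (Real.rpow_le_rpow_iff (by positivity) (by norm_num) (by norm_num)).1 h2
  have hsq : 2 / Real.sqrt 3 ≤ 5 / 4 := by
    rw [div_le_iff₀ (by positivity)]
    have : (8 / 5 : ℝ) ≤ Real.sqrt 3 := Real.le_sqrt_of_sq_le (by norm_num)
    linarith
  have hsq1 : 1 ≤ 2 / Real.sqrt 3 := by
    rw [le_div_iff₀ (by positivity)]
    have : Real.sqrt 3 ≤ 2 := Real.sqrt_le_iff.2 ⟨by norm_num, by norm_num⟩
    linarith
  -- the constant term
  have hcc : ∀ i ≤ t, (cc (wd i N) : ℝ) ≤ 3 ^ hd (wd i N) * (N / 2) := by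
    intro i hi
    refine le_trans (hDr (wd i N) (σ * t) hσt0 (hGd i hi)) ?_
    refine mul_le_mul_of_nonneg_left ?_ (by positivity)
    rw [wd_len]
    have h1 : (i : ℝ) ≤ t := by exact_mod_cast hi
    have h2 : (2 / Real.sqrt 3) ^ i ≤ (5 / 4 : ℝ) ^ t :=
      le_trans (pow_le_pow_right₀ hsq1 hi) (pow_le_pow_left₀ (by positivity) hsq _)
    calc (i : ℝ) * (2 / Real.sqrt 3) ^ i * (3 : ℝ) ^ (σ * t)
        ≤ t * (5 / 4 : ℝ) ^ t * (6 / 5 : ℝ) ^ t :=
          mul_le_mul (mul_le_mul h1 h2 (by positivity) (by positivity)) h3σ (by positivity)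
            (by positivity)
      _ = t * (3 / 2 : ℝ) ^ t := by
          rw [mul_assoc, ← mul_pow]
          norm_num
      _ ≤ 1 / 2 * (7 / 4 : ℝ) ^ t := ht1 t htt1
      _ ≤ N / 2 := by linarith
  refine ⟨fun i hi => ⟨?_, hhd i hi⟩, ?_, ?_⟩
  · -- the size
    have h1 := hR1 i N
    have h2 : (3 : ℝ) ^ hd (wd i N) * N = 2 ^ i * (S^[i] N : ℕ) + cc (wd i N) := by
      exact_mod_cast h1
    have h3 := hcc i hi
    have h4 : (2 : ℝ) ^ i * (S^[i] N : ℕ) ≤ 3 ^ hd (wd i N) * N := by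
      have : (0 : ℝ) ≤ cc (wd i N) := by positivity
      linarith
    have h5 : (3 : ℝ) ^ hd (wd i N) * N ≤ 2 * (2 ^ i * (S^[i] N : ℕ)) := by linarith
    have hSpos : (0 : ℝ) < (S^[i] N : ℕ) := by
      by_contra hneg
      push Not at hneg
      have : (0 : ℝ) < (3 : ℝ) ^ hd (wd i N) * N := by positivity
      have h6 : (2 : ℝ) ^ i * (S^[i] N : ℕ) ≤ 0 := mul_nonpos_of_nonneg_of_nonpos (by positivity)
        hneg
      linarith
    have h7 : Real.log ((2 : ℝ) ^ i * (S^[i] N : ℕ)) = i * Real.log 2 + Real.log (S^[i] N : ℕ) := by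
      rw [Real.log_mul (by positivity) hSpos.ne', Real.log_pow]
    have h8 : Real.log ((3 : ℝ) ^ hd (wd i N) * N) =
        hd (wd i N) * Real.log 3 + Real.log N := by
      rw [Real.log_mul (by positivity) (by positivity), Real.log_pow]
    have h9 := Real.log_le_log (by positivity) h4
    have h10 := Real.log_le_log (by positivity) h5
    have h10' : Real.log (2 * ((2 : ℝ) ^ i * (S^[i] N : ℕ))) =
        Real.log 2 + Real.log ((2 : ℝ) ^ i * (S^[i] N : ℕ)) :=
      Real.log_mul (by norm_num) (by positivity)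
    rw [h7, h8] at h9
    rw [h10', h7, h8] at h10
    have hrho : rho = Real.log 2 - Real.log 3 / 2 := by
      unfold rho
      rw [Real.log_div (by norm_num) (by norm_num),
        show (4 : ℝ) = 2 ^ 2 by norm_num, Real.log_pow]
      push_cast
      ring
    have h11 := abs_le.1 (hhd i hi)
    have hl3p : 0 < Real.log 3 := Real.log_pos (by norm_num)
    have h12 : |((hd (wd i N) : ℝ) - i / 2) * Real.log 3| ≤ σ * t * (11 / 10) := by
      rw [abs_mul, abs_of_pos hl3p]
      exact mul_le_mul (hhd i hi) hl3.le hl3p.le hσt0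
    have h13 := abs_le.1 h12
    rw [hrho, abs_le]
    constructor
    · nlinarith [h13.1, h13.2]
    · nlinarith [h13.1, h13.2]
  · -- upper bound for nx
    have h1 := abs_le.1 (hhd t le_rfl)
    by_cases hh : hd (wd t N) = 0
    · have : nx t N = 0 := by unfold nx; rw [hh]; simp
      rw [this]
      push_cast
      positivity
    · have h2 : 1 < 3 ^ hd (wd t N) := Nat.one_lt_pow hh (by norm_num)
      have h3 : 2 ^ (nx t N - 1) < 3 ^ hd (wd t N) := by
        unfold nx
        exact Nat.pow_pred_clog_lt_self (by norm_num) h2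
      have h4 : (2 : ℝ) ^ (nx t N - 1) ≤ 3 ^ hd (wd t N) := by exact_mod_cast h3.le
      have h5 := Real.log_le_log (by positivity) h4
      rw [Real.log_pow, Real.log_pow] at h5
      have h6 : (nx t N : ℝ) - 1 ≤ ((nx t N - 1 : ℕ) : ℝ) := by
        have : nx t N ≤ nx t N - 1 + 1 := by omega
        have h7 : (nx t N : ℝ) ≤ ((nx t N - 1 : ℕ) : ℝ) + 1 := by exact_mod_cast this
        linarith
      have h8 : ((nx t N : ℝ) - 1) * Real.log 2 ≤ hd (wd t N) * (65 / 41 * Real.log 2) :=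
        le_trans (mul_le_mul_of_nonneg_right h6 hl2.le)
          (le_trans h5 (mul_le_mul_of_nonneg_left hl3' (by positivity)))
      have h9 : (nx t N : ℝ) - 1 ≤ hd (wd t N) * (65 / 41) := by
        rw [← mul_assoc] at h8
        exact le_of_mul_le_mul_right h8 hl2
      linarith [h1.2]
  · -- lower bound for nx
    have h1 := abs_le.1 (hhd t le_rfl)
    have h2 : 3 ^ hd (wd t N) ≤ 2 ^ nx t N := by
      unfold nx
      exact Nat.le_pow_clog (by norm_num) _
    have h4 : (3 : ℝ) ^ hd (wd t N) ≤ 2 ^ nx t N := by exact_mod_cast h2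
    have h5 := Real.log_le_log (by positivity) h4
    rw [Real.log_pow, Real.log_pow] at h5
    have h8 : (hd (wd t N) : ℝ) * (3 / 2) * Real.log 2 ≤ nx t N * Real.log 2 := by
      refine le_trans ?_ h5
      rw [mul_assoc]
      exact mul_le_mul_of_nonneg_left hl3'' (by positivity)
    have h9 := le_of_mul_le_mul_right h8 hl2
    linarith [h1.1]

end Pool.Agent.Helper54.PS
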