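import Pool.Agent.Helper13.PS.St

/-!
# Project PS (MP_77ff3d_nt): module QD, deterministic part of the law
-/

set_option autoImplicit false

noncomputable section

namespace Pool.Agent.Helper54.PS

open Finset Filter Topology Pool.Agent.Helper76.ND Pool.Agent.Helper13.PS

private theorem qd_log3_le : Real.log 3 ≤ 65 / 41 * Real.log 2 := by
  have h1 : Real.log ((3 : ℝ) ^ 41) < Real.log ((2 : ℝ) ^ 65) :=
    Real.log_lt_log (by positivity) (by norm_num)
  rw [Real.log_pow, Real.log_pow] at h1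
  push_cast at h1
  linarith

/-- the estimates at one `N` -/
private theorem qd_core (hQT : StQT) (e κ σ : ℝ) (t N K : ℕ) (he : 0 < e) (hκ0 : 0 ≤ κ)
    (hκ : κ ≤ e / 60) (hσ : σ = e / 800) (hN : 1 ≤ N)
    (hA1 : 68 / 100 * (t : ℝ) ≤ Real.log N) (hA2 : 75 / e ≤ Real.log N)
    (hK1 : ∀ k ≤ K, |Real.log (S^[k] N : ℕ) - (Real.log N - rho * k)| ≤ 12 * σ * t ∧
      |(hd (wd k N) : ℝ) - k / 2| ≤ 6 * σ * t)
    (hK2 : Real.log (S^[K] N : ℕ) ≤ κ * t) : Law e N := by
  obtain ⟨q1, q2, q3, q4, q5⟩ := hQT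
  intro k hk
  obtain ⟨A, hA⟩ : ∃ A : ℝ, A = Real.log N := ⟨_, rfl⟩
  obtain ⟨c, hc⟩ : ∃ c : ℝ, c = Real.log (4 / 3) / 3 := ⟨_, rfl⟩
  have hrho : rho = 3 / 2 * c := by
    unfold rho
    rw [hc]
    ring
  have hlog43 : Real.log (4 / 3) = 2 * Real.log 2 - Real.log 3 := by
    rw [Real.log_div (by norm_num) (by norm_num), show (4 : ℝ) = 2 ^ 2 by norm_num, Real.log_pow]
    push_cast
    ring
  have hl2' := Real.log_two_lt_d9
  have hl2'' := Real.log_two_gt_d9
  have hl3 := qd_log3_le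
  have hl3' : Real.log 3 ≤ 11 / 10 := by linarith
  have hl30 : 0 ≤ Real.log 3 := Real.log_nonneg (by norm_num)
  have hc1 : 957 / 10000 ≤ c := by rw [hc, hlog43]; linarith
  have hc2 : c ≤ 1 / 9 := by
    have := Real.log_le_sub_one_of_pos (show (0 : ℝ) < 4 / 3 by norm_num)
    rw [hc]
    linarith
  have hσ0 : 0 ≤ σ := by rw [hσ]; positivity
  have hσt : 0 ≤ σ * t := by positivity
  have hκt : 0 ≤ κ * t := by positivity
  obtain ⟨B, hB⟩ : ∃ B : ℝ, B = κ * t + 13 * (σ * t) + 2 := ⟨_, rfl⟩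
  have hB0 : 0 ≤ B := by rw [hB]; positivity
  rw [← hA] at hA1 hA2 hk ⊢
  have hck : c * k ≤ A := by rw [hc]; linarith
  have hkc : (k : ℝ) * Real.log (4 / 3) / 3 = c * k := by rw [hc]; ring
  rw [hkc]
  -- the error bound is enough
  have hfin : 25 / 2 * B ≤ e * A := by
    have h1 : κ * t ≤ e / 60 * (A * (100 / 68)) := by
      have h2 : (t : ℝ) ≤ A * (100 / 68) := by linarith
      exact mul_le_mul hκ h2 (by positivity) (by positivity)
    have h3 : σ * t ≤ e / 800 * (A * (100 / 68)) := by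
      have h2 : (t : ℝ) ≤ A * (100 / 68) := by linarith
      rw [hσ]
      exact mul_le_mul_of_nonneg_left h2 (by positivity)
    have h4 : 75 ≤ e * A := by
      rw [div_le_iff₀ he] at hA2
      linarith
    rw [hB]
    have h5 : e / 60 * (A * (100 / 68)) = e * A * (100 / (60 * 68)) := by ring
    have h6 : e / 800 * (A * (100 / 68)) = e * A * (100 / (800 * 68)) := by ring
    rw [h5] at h1
    rw [h6] at h3
    linarith
  refine le_trans ?_ hfin
  -- positivity
  have hSpos : ∀ i, 1 ≤ S^[i] N := fun i => by rw [← q1 i N]; exact q5 _ _ hN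
  have hTlog : 0 ≤ Real.log (T^[k] N : ℕ) := by
    refine Real.log_nonneg ?_
    exact_mod_cast q5 k N hN
  have hnear : ∀ i ≤ K, |A - rho * i - (A - c * (i + hd (wd i N) : ℕ))| ≤ 6 / 9 * (σ * t) := by
    intro i hi
    have h1 := (hK1 i hi).2
    have h2 : A - rho * i - (A - c * (i + hd (wd i N) : ℕ)) = c * ((hd (wd i N) : ℝ) - i / 2) := by
      push_cast
      rw [hrho]
      ring
    rw [h2, abs_mul, abs_of_nonneg (by linarith : (0 : ℝ) ≤ c)]
    calc c * |(hd (wd i N) : ℝ) - i / 2| ≤ 1 / 9 * (6 * σ * t) :=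
          mul_le_mul hc2 h1 (abs_nonneg _) (by norm_num)
      _ = 6 / 9 * (σ * t) := by ring
  obtain ⟨i, hi⟩ := q2 k N
  -- comparison of T and S
  have hTS : |Real.log (T^[k] N : ℕ) - Real.log (S^[i] N : ℕ)| ≤ 11 / 10 ∧
      ∃ d : ℝ, 0 ≤ d ∧ d ≤ 1 ∧ (k : ℝ) = ((i + hd (wd i N) : ℕ) : ℝ) + d := by
    rcases hi with ⟨h1, h2⟩ | ⟨h1, h2, h3⟩
    · refine ⟨by rw [h2]; simp; norm_num, 0, le_rfl, by norm_num, by rw [← h1]; simp⟩
    · refine ⟨?_, 1, by norm_num, le_rfl, by rw [h1]; push_cast; ring⟩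
      have h4 := hSpos i
      have h5 : S^[i] N ≤ 3 * S^[i] N - 1 := by omega
      have h6 : 3 * S^[i] N - 1 ≤ 3 * S^[i] N := by omega
      have hp : (0 : ℝ) < (S^[i] N : ℕ) := by exact_mod_cast h4
      have h7 : Real.log (S^[i] N : ℕ) ≤ Real.log ((3 * S^[i] N - 1 : ℕ) : ℝ) :=
        Real.log_le_log hp (by exact_mod_cast h5)
      have h8 : Real.log ((3 * S^[i] N - 1 : ℕ) : ℝ) ≤ Real.log 3 + Real.log (S^[i] N : ℕ) := by
        rw [← Real.log_mul (by norm_num) hp.ne']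
        refine Real.log_le_log (lt_of_lt_of_le hp (by exact_mod_cast h5)) ?_
        exact_mod_cast h6
      rw [h3, abs_le]
      constructor <;> linarith
  obtain ⟨hTS1, d, hd0, hd1, hkd⟩ := hTS
  by_cases hiK : i ≤ K
  · -- first case
    have h1 := abs_le.1 (hK1 i hiK).1
    have h2 := abs_le.1 (hnear i hiK)
    have h3 := abs_le.1 hTS1
    rw [← hA] at h1
    have h4 : c * (k : ℝ) = c * ((i + hd (wd i N) : ℕ) : ℝ) + c * d := by rw [hkd]; ring
    have h5 : 0 ≤ c * d := mul_nonneg (by linarith) hd0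
    have h6 : c * d ≤ 1 / 9 := by
      calc c * d ≤ c * 1 := mul_le_mul_of_nonneg_left hd1 (by linarith)
        _ ≤ 1 / 9 := by linarith
    rw [h4, hB, abs_le]
    obtain ⟨h11, h12⟩ := h1
    obtain ⟨h21, h22⟩ := h2
    obtain ⟨h31, h32⟩ := h3
    constructor <;> linarith
  · -- second case
    push Not at hiK
    have h1 := abs_le.1 (hK1 K le_rfl).1
    have h2 := abs_le.1 (hnear K le_rfl)
    rw [← hA] at h1
    obtain ⟨τ, hτ⟩ : ∃ τ : ℕ, τ = K + hd (wd K N) := ⟨_, rfl⟩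
    rw [← hτ] at h2
    have h3 : τ ≤ k := by
      have h4 := q4 K i N hiK.le
      rw [← hτ] at h4
      have h5 : i + hd (wd i N) ≤ k := by
        rcases hi with h | h <;> omega
      omega
    have h6 : A - c * τ ≤ B := by rw [hB]; linarith [h1.1, h2.2, h2.1]
    obtain ⟨j, hj⟩ : ∃ j : ℕ, k = τ + j := ⟨k - τ, by omega⟩
    have h7 : T^[k] N ≤ 3 ^ j * S^[K] N := by
      have h8 := q3 τ j N
      rw [← hj] at h8
      have h9 := q1 K N
      rw [← hτ] at h9
      rw [h9] at h8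
      exact h8
    have h10 : Real.log (T^[k] N : ℕ) ≤ j * Real.log 3 + Real.log (S^[K] N : ℕ) := by
      have hp : (0 : ℝ) < (S^[K] N : ℕ) := by exact_mod_cast hSpos K
      have hp' : (0 : ℝ) < (T^[k] N : ℕ) := by exact_mod_cast q5 k N hN
      rw [← Real.log_pow, ← Real.log_mul (by positivity) hp.ne']
      exact Real.log_le_log hp' (by exact_mod_cast h7)
    have h11 : c * j ≤ B := by
      have : (k : ℝ) = τ + j := by rw [hj]; push_cast; ring
      rw [this] at hck
      linarith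
    have h12 : (j : ℝ) * Real.log 3 ≤ 23 / 2 * B := by
      have h13 : (j : ℝ) * Real.log 3 ≤ j * (11 / 10) :=
        mul_le_mul_of_nonneg_left hl3' (by positivity)
      have h14 : (957 / 10000 : ℝ) * j ≤ c * j := mul_le_mul_of_nonneg_right hc1 (by positivity)
      linarith
    have h15 : Real.log (S^[K] N : ℕ) ≤ B := by rw [hB]; linarith
    have h16 : A - c * k ≤ B := by
      have : c * (τ : ℝ) ≤ c * k := mul_le_mul_of_nonneg_left (by exact_mod_cast h3) (by linarith)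
      linarith
    rw [abs_le]
    constructor <;> linarith

theorem hQD (hQB : StQB) (hQT : StQT) : StQD := by
  intro ε hε
  obtain ⟨e, he⟩ : ∃ e : ℝ, e = min ε 1 := ⟨_, rfl⟩
  have he0 : 0 < e := by rw [he]; exact lt_min hε one_pos
  have he1 : e ≤ 1 := by rw [he]; exact min_le_right _ _
  have heε : e ≤ ε := by rw [he]; exact min_le_left _ _
  obtain ⟨m', hm'⟩ := exists_pow_lt_of_lt_one (show 0 < e / 60 by positivity)
    (show (82 / 100 : ℝ) < 1 by norm_num)
  have hκ : (82 / 100 : ℝ) ^ (m' + 1) ≤ e / 60 := by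
    refine le_trans ?_ hm'.le
    exact pow_le_pow_of_le_one (by norm_num) (by norm_num) (by omega)
  obtain ⟨T0, hT0⟩ := hQB (e / 800) (m' + 1) (by positivity) (by linarith)
  refine ⟨e / 800, m' + 1, max T0 ⌈75 / e * (100 / 68)⌉₊, by positivity, by linarith,
    fun t N ht hN1 hN2 hX => ?_⟩
  have ht1 : T0 ≤ t := le_trans (le_max_left _ _) ht
  have ht2 : 75 / e * (100 / 68) ≤ (t : ℝ) := by
    have h1 : ⌈75 / e * (100 / 68)⌉₊ ≤ t := le_trans (le_max_right _ _) ht
    exact le_trans (Nat.le_ceil _) (by exact_mod_cast h1)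
  obtain ⟨K, hK1, hK2⟩ := hT0 t N ht1 hN1 hN2 hX
  have hE : ¬ E (e / 800) t N := fun h => hX (Or.inl h)
  unfold E at hE
  push Not at hE
  have hl2'' := Real.log_two_gt_d9
  have hA1 : 68 / 100 * (t : ℝ) ≤ Real.log N := by
    have h1 := Real.log_le_log (by positivity) hE.1
    rw [Real.log_rpow (by norm_num)] at h1
    refine le_trans ?_ h1
    have h2 : (0 : ℝ) ≤ t := by positivity
    have h3 : 68 / 100 ≤ (1 - e / 800) * Real.log 2 := by nlinarith
    calc 68 / 100 * (t : ℝ) ≤ (1 - e / 800) * Real.log 2 * t := mul_le_mul_of_nonneg_right h3 h2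
      _ = _ := by ring
  have hA2 : 75 / e ≤ Real.log N := by linarith
  have hL := qd_core hQT e _ (e / 800) t N K he0 (by positivity) hκ rfl hN1 hA1 hA2 hK1 hK2
  intro k hk
  refine le_trans (hL k hk) (mul_le_mul_of_nonneg_right heε ?_)
  exact Real.log_nonneg (by exact_mod_cast hN1)

end Pool.Agent.Helper54.PS
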